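import Pool.Agent.Helper227.SOC.Comp

set_option autoImplicit false

open Pool.Agent.Helper227

namespace Pool.Agent.Results.MP_40eef6_lc.NoReduction

open Classical in
/-- The characteristic function of a set of natural numbers, used as an oracle. -/
noncomputable def chr (A : Set ℕ) : ℕ →. ℕ := fun n => Part.some (if n ∈ A then 1 else 0)

/-- A problem: a type of instances, each with a set of solutions, which are sets of natural
numbers. -/
structure Problem where
  Inst : Type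
  Sol : Inst → Set ℕ → Prop

/-- Ramsey's theorem `RT^n_k`: the instances are all colourings of the `n`-element sets of natural
numbers with `k` colours; the solutions are the infinite homogeneous sets. -/
def RT (n k : ℕ) : Problem where
  Inst := {s : Finset ℕ // s.card = n} → Fin k
  Sol c H := H.Infinite ∧ ∃ i : Fin k, ∀ s : {s : Finset ℕ // s.card = n}, (s.1 : Set ℕ) ⊆ H → c s = i

/-- Strong omniscient computable reducibility: to every instance `X` of `P` one can assign some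
instance `X'` of `Q` such that every solution of `X'` Turing-computes some solution of `X`. -/
def SocLe (P Q : Problem) : Prop :=
  ∀ X : P.Inst, ∃ X' : Q.Inst, ∀ Y', Q.Sol X' Y' →
    ∃ Y, P.Sol X Y ∧ TuringReducible (chr Y) (chr Y')

theorem chr_eq (H : ℕ → Bool) : chr {x | H x = true} = chi H := by
  funext n
  unfold chr chi
  by_cases h : H n = true
  · simp [h]
  · simp [h]

theorem main (n k : ℕ) (hn : 1 ≤ n) (hk : 1 ≤ k) : ¬ SocLe (RT n (k + 1)) (RT n k) := by
  classical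
  obtain ⟨m0, rfl⟩ : ∃ m0, n = m0 + 1 := ⟨n - 1, by omega⟩
  obtain ⟨c0, hc0⟩ := SOC.comp_main m0 k
  intro h
  obtain ⟨X', hX'⟩ := h fun s => c0 s.1
  let d : Finset ℕ → Fin k := fun s => if hs : s.card = m0 + 1 then X' ⟨s, hs⟩ else ⟨0, hk⟩
  obtain ⟨H, hH1, ⟨j, hH2⟩, hH3⟩ := hc0 d
  obtain ⟨Y, hY1, hY2⟩ := hX' {x | H x = true} ⟨hH1, j, fun s hs => by
    have := hH2 s.1 (fun x hx => hs hx) s.2
    rw [← this]
    change X' s = dite _ _ _
    rw [dif_pos s.2]⟩
  have hYe : {x | (fun x => decide (x ∈ Y)) x = true} = Y := by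
    ext x
    simp
  rw [chr_eq, ← hYe, chr_eq] at hY2
  have hrec : Nat.RecursiveIn {chi H} (chi fun x => decide (x ∈ Y)) := RecursiveIn.iff_nat.1 hY2
  obtain ⟨hYinf, i, hi⟩ := hY1
  refine hH3 _ hrec ?_ ⟨i, fun B hB hBc => ?_⟩
  · rw [hYe]
    exact hYinf
  · exact hi ⟨B, hBc⟩ fun x hx => by simpa using hB x hx

theorem main2 (n k : ℕ) (hn : 1 ≤ n) (hk : 2 ≤ k) : ¬ SocLe (RT (n + 1) k) (RT n k) := by
  classical
  intro h
  refine main n k hn (by omega) fun c => ?_
  -- the auxiliary instance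
  let c1 : Finset ℕ → Fin (k + 1) := fun s => if hs : s.card = n then c ⟨s, hs⟩ else 0
  let hom : Finset ℕ → Prop := fun B => ∀ X X', X ⊆ B → X' ⊆ B → X.card = n → X'.card = n → c1 X = c1 X'
  let c' : {s : Finset ℕ // s.card = n + 1} → Fin k := fun s => if hom s.1 then ⟨0, by omega⟩ else ⟨1, by omega⟩
  obtain ⟨X', hX'⟩ := h c'
  refine ⟨X', fun Y' hY' => ?_⟩
  obtain ⟨Y, ⟨hYinf, i, hi⟩, hY2⟩ := hX' Y' hY'
  refine ⟨Y, ⟨hYinf, ?_⟩, hY2⟩
  obtain ⟨B0, col, hB1, hB2, hB3⟩ := SOC.ramsey n c1 Y hYinf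
  have hhom0 : hom B0 := fun X X' h1 h2 h3 h4 => (hB3 X h1 h3).trans (hB3 X' h2 h4).symm
  have hi0 : i = ⟨0, by omega⟩ := by
    rw [← hi ⟨B0, hB2⟩ hB1]
    exact if_pos hhom0
  have hall : ∀ B : Finset ℕ, ↑B ⊆ Y → B.card = n + 1 → hom B := by
    intro B hB hBc
    by_contra hcon
    have h1 := hi ⟨B, hBc⟩ hB
    have h2 : c' ⟨B, hBc⟩ = ⟨1, by omega⟩ := if_neg hcon
    rw [h2, hi0] at h1
    have := congrArg Fin.val h1
    simp at this
  have hconn := SOC.connect n c1 Y hall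
  obtain ⟨X0, hX0, hX0c⟩ := hYinf.exists_subset_card_eq n
  refine ⟨c1 X0, fun s hs => ?_⟩
  rw [← hconn s.1 X0 hs hX0 s.2 hX0c]
  change c s = dite _ _ _
  rw [dif_pos s.2]

/-- Negative answers to both questions, for all exponents `n ≥ 1` and all numbers of colours:
`RT^n_{k+1}` is not strongly omnisciently computably reducible to `RT^n_k` (for `k ≥ 1`), and
`RT^{n+1}_k` is not strongly omnisciently computably reducible to `RT^n_k` (for `k ≥ 2`). -/
theorem result :
    (∀ n k : ℕ, 1 ≤ n → 1 ≤ k → ¬ SocLe (RT n (k + 1)) (RT n k)) ∧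
    (∀ n k : ℕ, 1 ≤ n → 2 ≤ k → ¬ SocLe (RT (n + 1) k) (RT n k)) :=
  ⟨main, main2⟩

end Pool.Agent.Results.MP_40eef6_lc.NoReduction
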